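import Pool.Agent.Helper54.R1.Geo

set_option autoImplicit false

/-! # Region R1 of MP_a8383f_co, packet XF: the path from the exact FCC state -/

namespace Pool.Agent.Helper93.R1

open Real Pool.Agent.Helper66.Kiss Pool.Agent.Helper54.R1 Pool.Agent.Helper65.R1

theorem gg_neg (z w a b : ℝ) : gg (-z) (-w) a b = gg z w a b := by
  unfold gg; rw [neg_sq, neg_sq, neg_mul_neg]

/-- `gg` depends only on the cosine of the difference -/
theorem gg_cos {z w a b a' b' : ℝ} (h : cos (a - b) = cos (a' - b')) : gg z w a b = gg z w a' b' := by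
  unfold gg; rw [h]

theorem gg_half (a b : ℝ) : gg (1 / 2) (1 / 2) a b = 3 / 4 * cos (a - b) + 1 / 4 := by
  unfold gg
  rw [Real.mul_self_sqrt (by norm_num)]
  norm_num

theorem gg_half' (a b : ℝ) : gg (1 / 2) (-1 / 2) a b = 3 / 4 * cos (a - b) - 1 / 4 := by
  unfold gg
  have h : (1 : ℝ) - (-1 / 2) ^ 2 = 1 - (1 / 2) ^ 2 := by norm_num
  rw [h, Real.mul_self_sqrt (by norm_num)]
  norm_num
  ring

theorem gg_pole (w a b : ℝ) : gg (-1) w a b = -w := by
  unfold gg
  norm_num

theorem le_of_cos_nonpos {z w a b : ℝ} (hzw : z * w ≤ 2 / 5) (hc : cos (a - b) ≤ 0) :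
    gg z w a b ≤ 1 / 2 := (lt_of_cos_nonpos hzw hc).le

/-- the shift `x = t / √2` -/
theorem x_bounds {t : ℝ} (h0 : 0 ≤ t) (h1 : t ≤ 1 / 16) : 0 ≤ t / √2 ∧ t / √2 ≤ 1 / 16 := by
  have h2 : (1 : ℝ) ≤ √2 := Real.one_le_sqrt.2 (by norm_num)
  constructor
  · positivity
  · rw [div_le_iff₀ (by positivity)]
    nlinarith

theorem xf : XF_stmt := by
  intro GA GB s t h0 h1
  obtain ⟨hx0, hx1⟩ := x_bounds h0 h1
  have hA := GA t h0 h1
  have hB := GB t h0 h1
  set x : ℝ := t / √2 with hx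
  obtain ⟨t1, t2⟩ := T0_num
  have p1 := Real.pi_gt_d4
  have p2 := Real.pi_lt_d4
  have tl := T0_lo
  -- cosines
  have c1 : 0 ≤ cos (T0 + x) := cos_nonneg_of_neg_pi_div_two_le_of_le (by linarith) (by linarith)
  have c2 : 0 ≤ cos (T0 - x) := cos_nonneg_of_neg_pi_div_two_le_of_le (by linarith) (by linarith)
  have c3 : cos (2 * T0 + 2 * x) ≤ 0 :=
    cos_nonpos_of_pi_div_two_le_of_le (by linarith) (by linarith)
  have c4 : cos (2 * T0 - 2 * x) ≤ 0 :=
    cos_nonpos_of_pi_div_two_le_of_le (by linarith) (by linarith)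
  have c5 : 0 ≤ cos (2 * x) := cos_nonneg_of_neg_pi_div_two_le_of_le (by linarith) (by linarith)
  have c6 : cos (π - 2 * T0) = 1 / 3 := by rw [cos_pi_sub, cos_two_T0, neg_neg]
  have ea : (fun k => AF k + t * (sF k / √2)) = ![T0 + x, π - T0 + x, π + T0 - x, 2 * π - T0 - x] := by
    funext k
    fin_cases k <;> simp [AF, sF, hx] <;> ring
  have eb : (fun k => AF k - t * (sF k / √2)) = ![T0 - x, π - T0 - x, π + T0 + x, 2 * π - T0 + x] := by
    funext k
    fin_cases k <;> simp [AF, sF, hx] <;> ring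
  rw [ea, eb]
  have k1 : ∀ a b : ℝ, cos (a - b) ≤ 1 / 3 → gg (1 / 2) (1 / 2) a b ≤ 1 / 2 := by
    intro a b h
    rw [gg_half]; linarith
  have hm : (-1 : ℝ) / 2 = -(1 / 2) := by ring
  have k2 : ∀ a b : ℝ, cos (a - b) ≤ 1 / 3 → gg (-1 / 2) (-1 / 2) a b ≤ 1 / 2 := by
    intro a b h
    rw [hm, gg_neg]
    exact k1 a b h
  -- differences of the `U`
  set a : Fin 4 → ℝ := ![T0 + x, π - T0 + x, π + T0 - x, 2 * π - T0 - x] with ha
  set b : Fin 4 → ℝ := ![T0 - x, π - T0 - x, π + T0 + x, 2 * π - T0 + x] with hb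
  have a0 : a 0 = T0 + x := rfl
  have a1 : a 1 = π - T0 + x := rfl
  have a2 : a 2 = π + T0 - x := rfl
  have a3 : a 3 = 2 * π - T0 - x := rfl
  have b0 : b 0 = T0 - x := rfl
  have b1 : b 1 = π - T0 - x := rfl
  have b2 : b 2 = π + T0 + x := rfl
  have b3 : b 3 = 2 * π - T0 + x := rfl
  have sym : ∀ u v : ℝ, cos (u - v) = cos (v - u) := fun u v => by rw [← cos_neg, neg_sub]
  have u01 : cos (a 1 - a 0) ≤ 1 / 3 := by
    rw [a0, a1, show π - T0 + x - (T0 + x) = π - 2 * T0 by ring, c6]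
  have u23 : cos (a 3 - a 2) ≤ 1 / 3 := by
    rw [a2, a3, show 2 * π - T0 - x - (π + T0 - x) = π - 2 * T0 by ring, c6]
  have u02 : cos (a 2 - a 0) ≤ 1 / 3 := by
    rw [a0, a2, show π + T0 - x - (T0 + x) = π - 2 * x by ring, cos_pi_sub]; linarith
  have u13 : cos (a 3 - a 1) ≤ 1 / 3 := by
    rw [a1, a3, show 2 * π - T0 - x - (π - T0 + x) = π - 2 * x by ring, cos_pi_sub]; linarith
  have u12 : cos (a 2 - a 1) ≤ 1 / 3 := by
    rw [a1, a2, show π + T0 - x - (π - T0 + x) = 2 * T0 - 2 * x by ring]; linarith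
  have u03 : cos (a 3 - a 0) ≤ 1 / 3 := by
    rw [a0, a3, show 2 * π - T0 - x - (T0 + x) = 2 * π - (2 * T0 + 2 * x) by ring,
      cos_two_pi_sub]; linarith
  have l01 : cos (b 1 - b 0) ≤ 1 / 3 := by
    rw [b0, b1, show π - T0 - x - (T0 - x) = π - 2 * T0 by ring, c6]
  have l23 : cos (b 3 - b 2) ≤ 1 / 3 := by
    rw [b2, b3, show 2 * π - T0 + x - (π + T0 + x) = π - 2 * T0 by ring, c6]
  have l02 : cos (b 2 - b 0) ≤ 1 / 3 := by
    rw [b0, b2, show π + T0 + x - (T0 - x) = 2 * x + π by ring, cos_add_pi]; linarith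
  have l13 : cos (b 3 - b 1) ≤ 1 / 3 := by
    rw [b1, b3, show 2 * π - T0 + x - (π - T0 - x) = 2 * x + π by ring, cos_add_pi]; linarith
  have l12 : cos (b 2 - b 1) ≤ 1 / 3 := by
    rw [b1, b2, show π + T0 + x - (π - T0 - x) = 2 * T0 + 2 * x by ring]; linarith
  have l03 : cos (b 3 - b 0) ≤ 1 / 3 := by
    rw [b0, b3, show 2 * π - T0 + x - (T0 - x) = 2 * π - (2 * T0 - 2 * x) by ring,
      cos_two_pi_sub]; linarith
  have dU : ∀ j k : Fin 4, j ≠ k → cos (a j - a k) ≤ 1 / 3 := by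
    intro j k hjk
    fin_cases j <;> fin_cases k
    · exact absurd rfl hjk
    · rw [sym]; exact u01
    · rw [sym]; exact u02
    · rw [sym]; exact u03
    · exact u01
    · exact absurd rfl hjk
    · rw [sym]; exact u12
    · rw [sym]; exact u13
    · exact u02
    · exact u12
    · exact absurd rfl hjk
    · rw [sym]; exact u23
    · exact u03
    · exact u13
    · exact u23
    · exact absurd rfl hjk
  have dL : ∀ j k : Fin 4, j ≠ k → cos (b j - b k) ≤ 1 / 3 := by
    intro j k hjk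
    fin_cases j <;> fin_cases k
    · exact absurd rfl hjk
    · rw [sym]; exact l01
    · rw [sym]; exact l02
    · rw [sym]; exact l03
    · exact l01
    · exact absurd rfl hjk
    · rw [sym]; exact l12
    · rw [sym]; exact l13
    · exact l02
    · exact l12
    · exact absurd rfl hjk
    · rw [sym]; exact l23
    · exact l03
    · exact l13
    · exact l23
    · exact absurd rfl hjk
  have z1 : ∀ k : Fin 4, (1 : ℝ) / 2 - (0 : Fin 4 → ℝ) k = 1 / 2 := fun k => by simp
  have z2 : ∀ k : Fin 4, (-1 : ℝ) / 2 - (0 : Fin 4 → ℝ) k = -1 / 2 := fun k => by simp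
  have m1 : t * (1 / 2) ≤ 2 / 5 := by linarith
  have m2 : -t * (1 / 2) ≤ 2 / 5 := by linarith
  have m3 : t * (-1 / 2) ≤ 2 / 5 := by linarith
  have m4 : -t * (-1 / 2) ≤ 2 / 5 := by linarith
  -- GA and GB in other forms
  have hA' : ∀ u v : ℝ, cos (u - v) = cos (T0 + x) → gg t (1 / 2) u v ≤ 1 / 2 := by
    intro u v h
    rw [gg_cos (a' := 0) (b' := T0 + x) (by rw [h, zero_sub, cos_neg])]
    exact hA
  have hB' : ∀ u v : ℝ, cos (u - v) = cos (T0 - x) → gg (-t) (1 / 2) u v ≤ 1 / 2 := by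
    intro u v h
    rw [gg_cos (a' := 0) (b' := T0 - x) (by rw [h, zero_sub, cos_neg])]
    exact hB
  have hA'' : ∀ u v : ℝ, cos (u - v) = cos (T0 + x) → gg (-t) (-1 / 2) u v ≤ 1 / 2 := by
    intro u v h
    rw [hm, gg_neg]
    exact hA' u v h
  have hB'' : ∀ u v : ℝ, cos (u - v) = cos (T0 - x) → gg t (-1 / 2) u v ≤ 1 / 2 := by
    intro u v h
    rw [hm, ← gg_neg, neg_neg]
    exact hB' u v h
  constructor
  · unfold gg
    rw [zero_sub, cos_neg, cos_pi, neg_sq, Real.mul_self_sqrt (by nlinarith)]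
    nlinarith
  · rw [gg_comm, gg_pole]; linarith
  · rw [gg_comm, gg_pole]; linarith
  · intro k
    rw [z1]
    fin_cases k
    · exact hA' _ _ (by
        show cos (0 - a 0) = _
        rw [a0, zero_sub, cos_neg])
    · exact le_of_cos_nonpos m1 (by
        show cos (0 - a 1) ≤ 0
        rw [a1, show (0 : ℝ) - (π - T0 + x) = -(π - (T0 - x)) by ring, cos_neg, cos_pi_sub]
        linarith)
    · exact le_of_cos_nonpos m1 (by
        show cos (0 - a 2) ≤ 0
        rw [a2, show (0 : ℝ) - (π + T0 - x) = -((T0 - x) + π) by ring, cos_neg, cos_add_pi]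
        linarith)
    · exact hA' _ _ (by
        show cos (0 - a 3) = _
        rw [a3, show (0 : ℝ) - (2 * π - T0 - x) = -(2 * π - (T0 + x)) by ring, cos_neg,
          cos_two_pi_sub])
  · intro k
    rw [z1]
    fin_cases k
    · exact le_of_cos_nonpos m2 (by
        show cos (π - a 0) ≤ 0
        rw [a0, cos_pi_sub]
        linarith)
    · exact hB' _ _ (by
        show cos (π - a 1) = _
        rw [a1, show π - (π - T0 + x) = T0 - x by ring])
    · exact hB' _ _ (by
        show cos (π - a 2) = _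
        rw [a2, show π - (π + T0 - x) = -(T0 - x) by ring, cos_neg])
    · exact le_of_cos_nonpos m2 (by
        show cos (π - a 3) ≤ 0
        rw [a3, show π - (2 * π - T0 - x) = -(π - (T0 + x)) by ring, cos_neg, cos_pi_sub]
        linarith)
  · intro k
    rw [z1, gg_pole]; linarith
  · intro k
    rw [z2]
    fin_cases k
    · exact hB'' _ _ (by
        show cos (0 - b 0) = _
        rw [b0, zero_sub, cos_neg])
    · exact le_of_cos_nonpos m3 (by
        show cos (0 - b 1) ≤ 0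
        rw [b1, show (0 : ℝ) - (π - T0 - x) = -(π - (T0 + x)) by ring, cos_neg, cos_pi_sub]
        linarith)
    · exact le_of_cos_nonpos m3 (by
        show cos (0 - b 2) ≤ 0
        rw [b2, show (0 : ℝ) - (π + T0 + x) = -((T0 + x) + π) by ring, cos_neg, cos_add_pi]
        linarith)
    · exact hB'' _ _ (by
        show cos (0 - b 3) = _
        rw [b3, show (0 : ℝ) - (2 * π - T0 + x) = -(2 * π - (T0 - x)) by ring, cos_neg,
          cos_two_pi_sub])
  · intro k
    rw [z2]
    fin_cases k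
    · exact le_of_cos_nonpos m4 (by
        show cos (π - b 0) ≤ 0
        rw [b0, cos_pi_sub]
        linarith)
    · exact hA'' _ _ (by
        show cos (π - b 1) = _
        rw [b1, show π - (π - T0 - x) = T0 + x by ring])
    · exact hA'' _ _ (by
        show cos (π - b 2) = _
        rw [b2, show π - (π + T0 + x) = -(T0 + x) by ring, cos_neg])
    · exact le_of_cos_nonpos m4 (by
        show cos (π - b 3) ≤ 0
        rw [b3, show π - (2 * π - T0 + x) = -(π - (T0 - x)) by ring, cos_neg, cos_pi_sub]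
        linarith)
  · intro k
    rw [z2, gg_pole]; linarith
  · intro j k hjk
    rw [z1, z1]
    exact k1 _ _ (dU j k hjk)
  · intro j k hjk
    rw [z2, z2]
    exact k2 _ _ (dL j k hjk)
  · intro j k
    rw [z1, z2, gg_half']
    have := cos_le_one (a j - b k)
    linarith

end Pool.Agent.Helper93.R1
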